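import Pool.Agent.H7.KR.Gen

/-!
# Cliques with `t < ω` vertices: definitions of the board `gt` (MP_fd41b2_co)

`b = p + 3 = ω - 1`, `u = w + 2 = t - 1`, `Δ = (p + 3) a + r`.
-/

set_option autoImplicit false

open Finset

namespace Pool.GT7

open Pool.Agent.H23.KT Pool.Agent.H46.KW Pool.KQ

/-- The weight of a vertex with `q` neighbours in a clique with `b + 1 = p + 4` vertices: `1` for
`q ≤ r`, `r (b - q) / ((b - r) q)` for `q ≥ r`, so `0` for `q = b`. -/
noncomputable def gg (p r q : ℕ) : ℝ :=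
  if q ≤ r then 1 else (r : ℝ) * ((p : ℝ) + 3 - q) / (((p : ℝ) + 3 - r) * q)

/-- One minus the weight of a vertex with `B` neighbours in a clique with `b = p + 3` vertices; it is
`b (B + 1 - r) / ((b - r) (B + 1))` for `B + 1 ≥ r`, and `0` for `B + 1 ≤ r`. -/
noncomputable def ww (p r B : ℕ) : ℝ := 1 - gg p r (B + 1)

/-- The weight of the clique `L` with `p + 3` vertices in `W`. -/
noncomputable def XX {V : Type} (G : SimpleGraph V) (p r a : ℕ) (W L : Finset V) : ℝ :=
  (((p + 3) * a + r : ℕ) : ℝ) - W.card + ∑ z ∈ W, gg p r ((nb G L z).card + 1)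

/-- The number of `u`-cliques of the complete `b`-partite graph with `s` parts of size `a + 1` and
`b - s` parts of size `a`: the coefficient of `X ^ u` in
`(1 + (a + 1) X) ^ s (1 + a X) ^ (b - s)`. -/
noncomputable def TT (b u a s : ℕ) : ℕ :=
  ((1 + Polynomial.C (a + 1) * Polynomial.X) ^ s *
    (1 + Polynomial.C a * Polynomial.X) ^ (b - s) : Polynomial ℕ).coeff u

/-- The elementary symmetric function: the coefficient of `X ^ u` in `∏ (1 + n i X)`. -/
noncomputable def es {b : ℕ} (n : Fin b → ℕ) (u : ℕ) : ℕ :=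
  (∏ i, (1 + Polynomial.C (n i) * Polynomial.X) : Polynomial ℕ).coeff u

/-- The normalising factor. -/
noncomputable def lam (p w r a : ℕ) : ℝ :=
  (r : ℝ) * ((a : ℝ) + 1) * TT (p + 2) (w + 1) a (r - 1) /
    ((((p : ℝ) + 4) * a + r) * ((a : ℝ) ^ (p + 3 - r) * ((a : ℝ) + 1) ^ r))

/-- The factor of the weights. -/
noncomputable def Lm (p w r a : ℕ) : ℝ := lam p w r a * (((p : ℝ) + 4) / r)

/-- The conditions on `p`, `w`, `r`: `r ≤ t - 2`, `r ≤ ω - 4`, `t < ω`. -/
structure Prm (p w r : ℕ) : Prop where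
  wp : w ≤ p
  r1 : 1 ≤ r
  rw : r ≤ w + 1
  rp : r ≤ p

/-- The local inequality for `W`. -/
def LIN {V : Type} [DecidableEq V] (G : SimpleGraph V) (p w r a : ℕ) (W : Finset V) : Prop :=
  lam p w r a * ((bal (p + 3) ((p + 3) * a + r) : ℝ) - kc G W (p + 3)) +
    Lm p w r a * ∑ L ∈ clq G W (p + 3), min (r : ℝ) (XX G p r a W L) ≤
      (TT (p + 3) (w + 2) a r : ℝ) - kc G W (w + 2)

/-- The sum of `ww` over the cliques of `X`, for the vertex `z`. -/
noncomputable def TZ {V : Type} (G : SimpleGraph V) (p r : ℕ) (X : Finset V) (z : V) : ℝ :=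
  ∑ L ∈ clq G X (p + 3), ww p r (nb G L z).card

/-- The sizes of the parts. -/
def sz {V : Type} {b : ℕ} (P : Fin b → Finset V) : Fin b → ℕ := fun i => (P i).card

/-- The sum of the weights of the vertices of `X`. -/
noncomputable def mm {V : Type} (G : SimpleGraph V) (p r : ℕ) (X L : Finset V) : ℝ :=
  ∑ y ∈ X, gg p r ((nb G L y).card + 1)

end Pool.GT7
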