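import Pool.Agent.H7.GT.Defs

/-!
# Cliques with `t < ω` vertices: statements of the board `gt` (MP_fd41b2_co)

`b = p + 3 = ω - 1` parts, `u = w + 2 = t - 1`, `Δ = (p + 3) a + r`, `Prm p w r`: `w ≤ p`,
`1 ≤ r ≤ w + 1`, `r ≤ p`. THEOREM: for large `a` the Turán graph with `(p + 4) a + r` vertices and
`p + 4` parts has the most cliques with `w + 3` vertices per vertex among the graphs with degrees
`≤ Δ` and no clique with `p + 5` vertices. Row `XXX` = `def XXXStmt : Prop`; file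
`Pool/Agent/H<k>/GT/XXX.lean`, `import Pool.Agent.H7.GT.Stmts`, namespace `Pool.GT7`,
`open Pool.Agent.H23.KT Pool.Agent.H46.KW Pool.KQ`. A row that needs others takes them as hypotheses.
Rows of the boards `kq`, `kr` which are needed are hypotheses too (`BRKStmt`, `TRVStmt`, `CSAStmt`,
`CSCStmt`, `REAStmt`, `PRTStmt`, `AMGStmt`: all proved).

Library: `Pool/Agent/H23/KT/{Base,Gen}.lean`, `Pool/Agent/H46/KW/{Bal,Zyk,Local}.lean` (`kc G W j` =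
number of `j`-cliques in `W`, `clq`, `mem_clq`, `kc_eq`, `nb G W x`, `mem_nb`, `CB G W q` = cliques in
`W` have `≤ q` vertices, `CB.mono`, `CB.nb`, `cn G W R` = common neighbours, `mem_cn`, `bal`, `zyk`,
`sum_facets`, `sum_card_cn`, `facets_cs`, `not_all`, `sum_link`, `kc_succ`, `kc_mono`, `kc_le_choose`,
`kc_le_sum`, `clq_insert`, `clq_erase'`); `non`, `tot`, `un`, `trv`, `Par`, `cc`, `e1`, `Str` in
`Pool/Agent/H7/KQ/Stmts.lean`; `gg`, `ww`, `XX`, `TT`, `es`, `lam`, `Lm`, `Prm`, `LIN`, `TZ`, `sz`, `mm` in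
`Pool/Agent/H7/GT/Defs.lean`. Below `b = p + 3`, `X = un P`, `D₁ = TT (p+2) (w+1) a (r-1)`.
-/

set_option autoImplicit false

open Finset

namespace Pool.GT7

open Pool.Agent.H23.KT Pool.Agent.H46.KW Pool.KQ

/-! ### Numbers -/

/-- (TTR) The numbers `TT`. With `P s b = (1+(a+1)X)^s (1+aX)^(b-s)`.
PROOF. (1) `1 + (a+1)X = (1 + aX) + X`, so `P (s+1) (b+1) = P s (b+1) + X * P s b` for `s ≤ b`. (2)
derivative of `P r (b+2)` (`r ≥ 1`): `r (a+1) P (r-1) (b+1) + (b+2-r) a P r (b+1)`; take the coefficient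
of `X ^ (u+1)` (`Polynomial.coeff_derivative`) and replace `TT (b+1) (u+1) a (r-1)` by
`TT (b+1) (u+1) a r - TT b u a (r-1)` (by (1)); `r (a+1) + (b+2-r) a = (b+2) a + r`. (3) from (1) by
induction on `s`, from `TT b u a 0 = choose b u * a ^ u` (`coeff_one_add_X_pow`-like; or induction on
`b` with `P 0 (b+1) = P 0 b + aX P 0 b` and Pascal) and the same for `s = b` with `a + 1`. -/
def TTRStmt : Prop :=
  (∀ b u a s : ℕ, s ≤ b → TT (b + 1) (u + 1) a (s + 1) = TT (b + 1) (u + 1) a s + TT b u a s) ∧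
  (∀ b u a r : ℕ, 1 ≤ r → r ≤ b + 1 →
    (u + 2) * TT (b + 2) (u + 2) a r + r * (a + 1) * TT b u a (r - 1) =
      ((b + 2) * a + r) * TT (b + 1) (u + 1) a r) ∧
  (∀ b u a s : ℕ, s ≤ b → b.choose u * a ^ u ≤ TT b u a s ∧
    TT b u a s ≤ b.choose u * (a + 1) ^ u) ∧
  (∀ b u a s s' : ℕ, s ≤ s' → s' ≤ b → TT b u a s ≤ TT b u a s')

/-- (EST) The numbers `es`. PROOF. (1) `Finset.prod_one_add`-like (`Finset.prod_add`: the product is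
`∑ I, ∏ i ∈ I, C (n i) X`, coefficient of `X ^ u`: the `I` with `u` elements). (2) separate the
indices with `n i = a + 1` from the others (`Finset.prod_ite`, `prod_const`, after rewriting `n i` as an
`if`). (3) `∏ = (1 + n_i X)(1 + n_j X) Q`, `Q` = product over the other indices:
`es n (w+2) = n_i n_j [w]Q + (n_i + n_j) [w+1]Q + [w+2]Q`; with `n_i, n_j` replaced by `n_i - 1`,
`n_j + 1` the difference is `(n_i - n_j - 1) [w]Q`, and `[w]Q = ∑_(J, card w) ∏ ≥ choose (p+1) w * lo ^ w`.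
(4) `∏ = (1 + n_i X) Q`: adding `x` to `n_i` adds `x * [w+1]Q`. -/
def ESTStmt : Prop :=
  (∀ {b : ℕ} (n : Fin b → ℕ) (u : ℕ),
    es n u = ∑ I ∈ (univ : Finset (Fin b)).powersetCard u, ∏ i ∈ I, n i) ∧
  (∀ {b : ℕ} (n : Fin b → ℕ) (u a s : ℕ), (∀ i, n i = a ∨ n i = a + 1) → ∑ i, n i = b * a + s →
    es n u = TT b u a s ∧ ∏ i, n i = a ^ (b - s) * (a + 1) ^ s) ∧
  (∀ (p w lo : ℕ) (n : Fin (p + 3) → ℕ) (i j : Fin (p + 3)), n j + 2 ≤ n i → (∀ l, lo ≤ n l) →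
    es n (w + 2) + (n i - n j - 1) * ((p + 1).choose w * lo ^ w) ≤
      es (Function.update (Function.update n i (n i - 1)) j (n j + 1)) (w + 2)) ∧
  (∀ (p w lo x : ℕ) (n : Fin (p + 3) → ℕ) (i : Fin (p + 3)), (∀ l, lo ≤ n l) →
    es n (w + 2) + x * ((p + 2).choose (w + 1) * lo ^ (w + 1)) ≤
      es (Function.update n i (n i + x)) (w + 2))

/-- (SWL) Balanced sizes are best. Needs EST.
PROOF. Strong induction on `∑ (n i) ^ 2`. If `n j + 2 ≤ n i` for some `i`, `j`: let `n'` be the update of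
EST (3); `∏ n' - ∏ n = (n i - n j - 1) * (product of the other p + 1 sizes)`, between `0` and
`(n i - n j - 1) * hi ^ (p+1)`; so `es n (w+2) + c ∏ n ≤ es n' (w+2) + c ∏ n'` by the hypothesis on `c`
(if `c ≥ 0` directly). `n'` is in the box, has the same sum and smaller `∑ n' ^ 2`. If there are no such
`i`, `j` all `n i` are in `{t, t + 1}` (`t` = minimum); `∑ = (p+3) a + s`, `s < p + 3`, gives `n i = a ∨ n i =
a + 1` for all `i`; EST (2). -/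
def SWLStmt : Prop :=
  ∀ (p w a s lo hi : ℕ) (c : ℝ), s < p + 3 → lo ≤ a → a + 1 ≤ hi →
    -c * (hi : ℝ) ^ (p + 1) ≤ (p + 1).choose w * (lo : ℝ) ^ w →
    ∀ n : Fin (p + 3) → ℕ, ∑ i, n i = (p + 3) * a + s → (∀ i, lo ≤ n i ∧ n i ≤ hi) →
    (es n (w + 2) : ℝ) + c * ∏ i, (n i : ℝ) ≤
      TT (p + 3) (w + 2) a s + c * ((a : ℝ) ^ (p + 3 - s) * ((a : ℝ) + 1) ^ s)

/-- (LMB) The size of the factors. Needs TTR (3).
PROOF. `Lm = (p+4)(a+1) D₁ / (((p+4)a+r) a^(p+3-r) (a+1)^r)`, `c a^(w+1) ≤ D₁ ≤ c (a+1)^(w+1)` with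
`c = choose (p+2) (w+1)`, `a^(p+3) ≤ a^(p+3-r) (a+1)^r ≤ (a+1)^(p+3)`, `1 ≤ (p+4)(a+1)/((p+4)a+r) ≤
(a+1)/a`; and `(1+1/a)^k ≤ 1 + K/a`, `(a/(a+1))^k ≥ 1 - k/a`. The last part: unfold. -/
def LMBStmt : Prop :=
  ∀ p w r : ℕ, Prm p w r → ∃ K : ℝ, 0 < K ∧ ∀ a : ℕ, 1 ≤ a →
    (1 - K / a) * ((p + 2).choose (w + 1) * (a : ℝ) ^ (w + 1)) ≤ Lm p w r a * (a : ℝ) ^ (p + 3) ∧
    Lm p w r a * (a : ℝ) ^ (p + 3) ≤ (1 + K / a) * ((p + 2).choose (w + 1) * (a : ℝ) ^ (w + 1)) ∧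
    0 < lam p w r a ∧ 0 < Lm p w r a ∧ lam p w r a ≤ Lm p w r a ∧
    lam p w r a * (((p + 4) * a + r) * bal (p + 3) ((p + 3) * a + r)) =
      r * (a + 1) * TT (p + 2) (w + 1) a (r - 1)

/-- (NUX) The numerical inequality for balanced sizes (equality for `x = 0, 1`). Needs TTR.
PROOF. `B = a^(p+3-r) (a+1)^r`, `ρ = a/(a+1)`: `a^(p+3-r+x) (a+1)^(r-x) = B ρ^x`. By definition of `lam`
the left side is `D₁ [r (a+1)(1-ρ^x) + (p+4)(a+1) x ρ^x] / ((p+4)a+r) + (5/2) C(x,2) a^w`. As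
`(a+1)(1-ρ^x) = ∑_(i<x) ρ^i ≤ x` and `(a+1) ρ^x = a ρ^(x-1)`, for `x ≥ 1` the bracket is
`≤ x ((p+4)a+r) - (p+4) a x (1 - ρ^(x-1))`. Right side: by TTR (1)
`TT b u a r - TT b u a (r-x) = ∑_(i<x) TT (b-1) (u-1) a (r-1-i)`, and
`TT (b-1) (u-1) a (r-1) - TT (b-1) (u-1) a (r-1-i) = ∑_(j<i) TT (b-2) (u-2) a (r-2-j) ≤
i * choose (p+1) w * (a+1)^w`; so the right side is `≥ x D₁ - C(x,2) choose (p+1) w (a+1)^w`. It remains:
`C(x,2) (choose (p+1) w (a+1)^w + (5/2) a^w) ≤ D₁ (p+4) a x (1 - ρ^(x-1)) / ((p+4)a+r)`. For `x ≤ 1` both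
sides are `0`. For `x ≥ 2`: `1 - ρ^(x-1) ≥ (x-1)/(a+1) (1 - x/(a+1))` (Bernoulli-like:
`1 - ρ^(x-1) = ∑_(i<x-1) ρ^i/(a+1)`, `ρ^i ≥ 1 - i/(a+1)`), `D₁ ≥ choose (p+2) (w+1) a^(w+1)`: the right side
is `≥ 2 C(x,2) choose (p+2) (w+1) a^w (1 - K/a)`, and
`2 choose (p+2) (w+1) = 2 choose (p+1) w + 2 choose (p+1) (w+1) ≥ choose (p+1) w + 3`. -/
def NUXStmt : Prop :=
  ∀ p w r : ℕ, Prm p w r → ∃ a₀ : ℕ, ∀ a ≥ a₀, ∀ x ≤ r,
    lam p w r a * ((a : ℝ) ^ (p + 3 - r) * ((a : ℝ) + 1) ^ r) +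
      (Lm p w r a * x - lam p w r a) *
        ((a : ℝ) ^ (p + 3 - r + x) * ((a : ℝ) + 1) ^ (r - x)) +
      5 / 2 * (x.choose 2 : ℝ) * (a : ℝ) ^ w ≤
      (TT (p + 3) (w + 2) a r : ℝ) - TT (p + 3) (w + 2) a (r - x)

/-- (SIZ) The numerical inequality for all sizes. Needs NUX, SWL, LMB.
PROOF. `c = Lm x - lam ≥ -lam` (`Lm ≥ 0`), `lo = a / 2` (natural division), `hi = 2 a`: for `a` large `-c hi^(p+1) ≤
lam (2a)^(p+1) ≤ K a^w / a ≤ choose (p+1) w * lo ^ w` (LMB: `lam ≤ Lm ≤ K' a^(w+1) / a^(p+3)`). SWL with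
`s = r - x < p + 3` (`∑ n = (p+3) a + (r - x)`): `es n (w+2) + c ∏ n ≤ TT (r-x) + c a^(p+3-(r-x))
(a+1)^(r-x)`, `p + 3 - (r - x) = p + 3 - r + x`; add NUX. -/
def SIZStmt : Prop :=
  ∀ p w r : ℕ, Prm p w r → ∃ a₀ : ℕ, ∀ a ≥ a₀, ∀ x ≤ r, ∀ n : Fin (p + 3) → ℕ,
    ∑ i, n i + x = (p + 3) * a + r → (∀ i, a ≤ 2 * n i ∧ n i ≤ 2 * a) →
    lam p w r a * ((a : ℝ) ^ (p + 3 - r) * ((a : ℝ) + 1) ^ r - ∏ i, (n i : ℝ)) +
      Lm p w r a * x * ∏ i, (n i : ℝ) + 5 / 2 * (x.choose 2 : ℝ) * (a : ℝ) ^ w ≤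
      (TT (p + 3) (w + 2) a r : ℝ) - es n (w + 2)

/-- (XGR) More than `r` vertices missing: there is room. Needs SWL, EST (4), LMB.
PROOF. `c₁ = choose (p+2) (w+1)`, `x ≥ r + 1`. `lo = ⌈(1-e) a⌉`. EST (4) at some `i`: `es n (w+2) + x c₁ lo^(w+1)
≤ es n⁺ (w+2)`, and `∑ n⁺ = (p+3) a + r`, so `es n⁺ (w+2) ≤ TT (p+3) (w+2) a r` by SWL with `c = 0`, `lo = 0`,
`hi = (p+3) a + r + 1`. So the right side is `≥ x c₁ ((1-e) a)^(w+1) ≥ x c₁ (1 - (w+1) e) a^(w+1)`. Left side: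
`a^(p+3-r) (a+1)^r - ∏ n ≤ ((1+1/a)^(p+3) - (1-e)^(p+3)) a^(p+3) ≤ 2 (p+3) e a^(p+3)` for `a` large;
`∏ n ≤ (1+e)^(p+3) a^(p+3) ≤ (1 + 2 (p+3) e) a^(p+3)` (`e ≤ 1/(p+3)^2`); `lam ≤ Lm`, LMB: `Lm a^(p+3) ≤
(1+e) c₁ a^(w+1)` for `a` large. So with `b = p + 3` the left side is `≤ c₁ a^(w+1) [(1+e) 2 b e +
(1+e)(1+2be)(x - (η/2)(x-r))] + K a^w`. As `x ≤ (r+1)(x-r)` and `r + 1 ≤ b` all is proved if
`(η/2)(x-r) ≥ (10 b ^ 2 e)(x-r) + K/(c₁ a)`: `e₀ = η/(40 b^2)`. -/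
def XGRStmt : Prop :=
  ∀ p w r : ℕ, Prm p w r → ∀ η : ℝ, 0 < η → η ≤ 1 → ∃ e₀ : ℝ, 0 < e₀ ∧ ∀ e K : ℝ, 0 < e → e ≤ e₀ →
    ∃ a₀ : ℕ, ∀ a ≥ a₀, ∀ x > r, ∀ n : Fin (p + 3) → ℕ, ∑ i, n i + x = (p + 3) * a + r →
    (∀ i, (1 - e) * a ≤ (n i : ℝ) ∧ (n i : ℝ) ≤ (1 + e) * a) →
    lam p w r a * ((a : ℝ) ^ (p + 3 - r) * ((a : ℝ) + 1) ^ r - ∏ i, (n i : ℝ)) +
      Lm p w r a * ((x : ℝ) - η / 2 * ((x : ℝ) - r)) * ∏ i, (n i : ℝ) + K * (a : ℝ) ^ w ≤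
      (TT (p + 3) (w + 2) a r : ℝ) - es n (w + 2)

/-- (GCO) The pointwise inequality for the weights. `ww p r B = b (B+1-r) / ((b-r)(B+1))` for
`B + 1 ≥ r` (`b = p + 3`), `0` for `B + 1 ≤ r`.
PROOF. (1) `0 ≤ gg ≤ 1` for `q ≤ b` (`r (b-q) ≤ (b-r) q` iff `r ≤ q`). (2) `gg p r (p+3) = 0`. (3) `ww p r
(p+1) = b (b-1-r) / ((b-r)(b-1)) ≥ (b-1-r)/(b-r) ≥ 2/3` as `b - r ≥ 3`. (4) `(B+1-r)/(B+1)` is increasing,
at `B = r` the value is `b / ((b-r)(r+1)) ≥ 1/b` as `(b-r)(r+1) ≤ b^2`. (5) Let `q = B + 1 ≤ p + 2`, `u = w + 2`.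
If `q < u` the left side is `0`. Otherwise `choose B (u-1) / choose (b-1) (u-1) = (b/q) choose q u / choose b u`
and the claim is `choose q u / choose b u ≤ (1 - 1/b) (q-r)/(b-r)`. `(q-r)/(b-r) ≥ (q-u+1)/(b-u+1)` (as
`r ≤ u - 1`); `choose q u / choose b u = (q-u+1)/(b-u+1) * choose q (u-1) / choose b (u-1)` and
`choose q (u-1) ≤ choose (b-1) (u-1) = choose b (u-1) * (b-u+1)/b ≤ (1 - 1/b) choose b (u-1)`. (6) for
`q = b - μ`: `μ = 0`: `0`; `μ = 1`: `gg = r/((b-r)(b-1))`; `μ ≥ 2`: `gg ≤ 1 ≤ choose μ 2`. -/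
def GCOStmt : Prop :=
  ∀ p w r : ℕ, Prm p w r →
    (∀ B ≤ p + 2, 0 ≤ ww p r B ∧ ww p r B ≤ 1 ∧ 0 ≤ gg p r (B + 1) ∧ gg p r (B + 1) ≤ 1) ∧
    ww p r (p + 2) = 1 ∧ 1 / 2 ≤ ww p r (p + 1) ∧
    (∀ B ≤ p + 2, r ≤ B → 1 / ((p : ℝ) + 3) ≤ ww p r B) ∧
    (∀ B ≤ p + 1, (B.choose (w + 1) : ℝ) ≤
      (1 - 1 / ((p : ℝ) + 3)) * (p + 2).choose (w + 1) * ww p r B) ∧
    (∀ μ ≤ p + 2, gg p r (p + 3 - μ) ≤
      (r : ℝ) / (((p : ℝ) + 3 - r) * ((p : ℝ) + 2)) * μ + μ.choose 2)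

/-! ### The global part -/

/-- (PHI) Every clique with `b + 1 = p + 4` vertices has weight at least `r`. Needs GCO (1).
PROOF (model: `Pool/Agent/H17/KQ/WST.lean`). `b = p + 3`, `q z = (nb G K z).card ≤ b` for all `z` (for `z ∈ K` it
is `b`, for `z ∉ K` by `CB`). For `v ∈ K`, `z ∈ nb G univ v`: `(nb G (K.erase v) z).card + 1 = q z`. So
`∑_(v ∈ K) XX = A + ∑_z q z * gg p r (q z)`, `A = ∑_(v ∈ K) (Δ - card N(v)) ≥ 0` (an integer) and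
`∑_(v ∈ K) card N(v) = ∑_z q z`. `q gg q = q` if `q ≤ r`, `= r (b-q)/(b-r)` if `q ≥ r`. Let `P` = sum of `q z`
over `q z ≤ r`, `D` = sum of `b - q z` over `r < q z < b`. CLAIM `A + P + r D/(b-r) ≥ r`. Suppose not.
`A = (b+1)(b a + r) - ∑ q z ≡ r - P + D` modulo `b`, so `b` divides `r - P - A + D`. This integer is
`> r D/(b-r) + D ≥ 0`, and as `r D/(b-r) < r` we have `D < b - r`, so it is `< r + (b - r) = b`:
contradiction. Finally `∑ min r x_v ≥ min r (∑ x_v)` for `x_v ≥ 0`. -/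
def PHIStmt : Prop :=
  ∀ {V : Type} [Fintype V] [DecidableEq V] (G : SimpleGraph V) (p w r a : ℕ), Prm p w r →
    CB G univ (p + 4) → (∀ v, (nb G univ v).card ≤ (p + 3) * a + r) →
    ∀ K ∈ clq G univ (p + 4), (r : ℝ) ≤
      ∑ v ∈ K, min (r : ℝ) (XX G p r a (nb G univ v) (K.erase v))

/-- (GLD) Local to global. Needs PHI, TTR (2), LMB (last part). `N(v) = nb G univ v`.
PROOF (model: `Pool/Agent/H14/KQ/GLO.lean`). Sum `LIN G p w r a (N(v))` over `v`. `∑_v kc G N(v) j = (j+1) kc G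
univ (j+1)`; `∑_v ∑_(L ∈ clq G N(v) (p+3)) min r (XX ..) = ∑_(K ∈ clq G univ (p+4)) ∑_(v ∈ K) min r (XX G p r a
N(v) (K.erase v)) ≥ r kc G univ (p+4)` (PHI), `Lm r = lam (p+4)`, `Lm ≥ 0`. So, with `n = card V`, `lam n bal ≤
n TT (p+3) (w+2) a r - (w+3) kc G univ (w+3)`. Multiply by `(p+4) a + r`: LMB gives `lam bal ((p+4)a+r) =
r (a+1) D₁`, TTR (2) (with `b = p+2`, `u = w+1`): `(w+3) TT (p+4) (w+3) a r = ((p+4)a+r) TT (p+3) (w+2) a r -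
r (a+1) D₁`. Divide by `w + 3`. -/
def GLDStmt : Prop :=
  ∀ {V : Type} [Fintype V] [DecidableEq V] (G : SimpleGraph V) (p w r a : ℕ), Prm p w r → 1 ≤ a →
    CB G univ (p + 4) → (∀ v, (nb G univ v).card ≤ (p + 3) * a + r) →
    (∀ v, LIN G p w r a (nb G univ v)) →
    kc G univ (w + 3) * ((p + 4) * a + r) ≤ TT (p + 4) (w + 3) a r * Fintype.card V

/-- (TCT) The Turán graph with `(p+4) a + r` vertices and `p + 4` parts. Needs EST (1), (2).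
PROOF. Degrees and clique number: `TURStmt` of the board `kq` (`Pool.KQ.tur`, `r ≤ p + 1`). Count: the
residue class of `i < p + 4` has `n i = a + 1` elements for `i < r`, `a` for `i ≥ r`. For `I` in
`powersetCard t univ` and a choice of one element in each class `i ∈ I` the set of these elements is
a `t`-clique (different residues), and it determines `I` and the choice. So there are at least
`∑_I ∏_(i ∈ I) n i = es n t = TT (p+4) t a r` of them. (Model: `tur_lower` in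
`Pool/Agent/H46/KW/Tur.lean`; `Finset.pi` or `Fintype.piFinset` over the subtype.) -/
def TCTStmt : Prop :=
  ∀ p t a r : ℕ, r ≤ p + 3 →
    TT (p + 4) t a r ≤ {s : Finset (Fin ((p + 4) * a + r)) |
      (SimpleGraph.turanGraph ((p + 4) * a + r) (p + 4)).IsNClique t s}.ncard

/-! ### Structure -/

/-- (MMC) Nearly the maximal number of `u`-cliques gives nearly the maximal number of `b`-cliques.
PROOF. `b = p + 3`, `u = w + 2 ≤ b - 1`, `n = card W ≤ b (a+1)`, `k s = kc G W s`. Moon-Moser: for `s ≥ 1`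
`(s+1)^2 (k (s+1))^2 ≤ k s * (s (s+2) k (s+2) + n k (s+1))`: `facets_cs` (at `p := s`) and for
`L ∈ clq G W (s+1)`: `∑_(z ∈ L) nz G W L z ≤ s * card (cn G W L) + n` (a vertex of `W` is in `cn G W
(L.erase z)` for all `s + 1` elements `z` if it is in `cn G W L`, else for at most one), `sum_card_cn`. All `k s > 0`
for `s ≤ u`. With `d s = (s+1) k (s+1) / k s` (for `k s > 0`): `(s+1) d s ≤ s d (s+1) + n`, `d 0 ≤ n`.
`k (b+1) = 0`. (i) downward: `d s ≤ n (b-s)/b ≤ (a+1)(b-s)` for `s ≤ b` with `k s > 0`. (ii) `u! k u =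
∏_(s<u) d s`, `u! choose b u = ∏_(s<u) (b-s)`: `d (u-1) ∏_(s<u-1) (a+1)(b-s) ≥ u! (choose b u a^u - C₀
a^(u-1))` gives `d (u-1) ≥ (b-u+1) a - C'`. (iii) upward, `s ≥ u - 1 ≥ 1`: `d (s+1) ≥ ((s+1) d s - n)/s ≥
(b-s-1) a - C''` (so `k (s+2) > 0`) for `s + 1 ≤ b - 1`. (iv) `k b = k u ∏_(s=u..b-1) d s/(s+1) ≥ (choose b u a^u
- C₀ a^(u-1)) ∏ ((b-s) a - C'')/(s+1) ≥ a^b - C₂ a^(b-1)` (the product of the leading constants is
`1`). `C₁ = 2 C₂`: `(a + C₁)(a^b - C₂ a^(b-1)) ≥ a^(b+1)` for `a ≥ 2 C₂`. -/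
def MMCStmt : Prop :=
  ∀ p w : ℕ, w ≤ p → ∀ C₀ : ℝ, ∃ C₁ a₀ : ℕ, ∀ a ≥ a₀, ∀ {V : Type} [DecidableEq V]
    (G : SimpleGraph V) (W : Finset V), CB G W (p + 3) → W.card ≤ (p + 3) * (a + 1) →
    ((p + 3).choose (w + 2) : ℝ) * (a : ℝ) ^ (w + 2) ≤ kc G W (w + 2) + C₀ * (a : ℝ) ^ (w + 1) →
    a ^ (p + 4) ≤ (a + C₁) * kc G W (p + 3)

/-- (KZC) A clique which sees almost everything: `KZRStmt` (board `kq`, proof
`Pool/Agent/H88/KQ/KZR.lean`, `Pool/Agent/H7/KR/KZR.lean`) with another constant.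
PROOF. `b = p + 3`, `h = card W`, `k = kc G W b`, `C₂ = b (b + C₁ + 2)`. If all `∑_z nz < h - C₂` then (as
there) `b k < (h - C₂) (h/b)^(b-1)`, `k < (h/b)^b (1 - C₂/h) ≤ (a+1)^b (1 - (b+C₁+2)/(a+1))`. But `k ≥
a^(b+1)/(a+C₁) ≥ a^b (1 - C₁/a) ≥ (a+1)^b (1 - b/(a+1)) (1 - C₁/a) ≥ (a+1)^b (1 - (b+C₁+1)/(a+1))` for
`a` large. -/
def KZCStmt : Prop :=
  ∀ p C₁ : ℕ, ∃ C₂ a₀ : ℕ, ∀ a ≥ a₀, ∀ {V : Type} [DecidableEq V] (G : SimpleGraph V)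
    (W : Finset V), CB G W (p + 3) → W.card ≤ (p + 3) * (a + 1) →
    a ^ (p + 4) ≤ (a + C₁) * kc G W (p + 3) →
    ∃ L ∈ clq G W (p + 3), W.card ≤ ∑ z ∈ L, nz G W L z + C₂

/-- (PRC) First approximation: `PREStmt` (proof and model `Pool/Agent/H7/KR/PRE.lean`) with another
constant. Needs KZC, PRT, AMG, TRV, BRK. PROOF as there, with `card (W \ un A) ≤ C₂`:
`card trv ≥ kc - C₂ (2 b a)^(b-1) ≥ a^b - C₃ a^(b-1)`. -/
def PRCStmt : Prop :=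
  ∀ p C₁ : ℕ, ∃ C : ℝ, 0 < C ∧ ∀ e : ℝ, 0 < e → ∃ a₀ : ℕ, ∀ a ≥ a₀,
    ∀ {V : Type} [DecidableEq V] (G : SimpleGraph V) (W : Finset V), CB G W (p + 3) →
    W.card ≤ (p + 3) * (a + 1) → a ^ (p + 4) ≤ (a + C₁) * kc G W (p + 3) →
    ∃ A : Fin (p + 3) → Finset V, Par G A ∧ (∀ i, A i ⊆ W) ∧
      (∀ i, (1 - e) * a ≤ ((A i).card : ℝ) ∧ ((A i).card : ℝ) ≤ (1 + e) * a) ∧
      ((W \ un A).card : ℝ) ≤ C ∧ (tot G A : ℝ) ≤ C * a

/-- (STC) The structure. Needs MMC, PRC, REA. PROOF. MMC, PRC with `e / 2`, REA. -/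
def STCStmt : Prop :=
  ∀ p w : ℕ, w ≤ p → ∀ C₀ : ℝ, ∃ C : ℝ, 0 < C ∧ ∀ e : ℝ, 0 < e → e ≤ 1 / 2 → ∃ a₀ : ℕ, ∀ a ≥ a₀,
    ∀ {V : Type} [DecidableEq V] (G : SimpleGraph V) (W : Finset V), CB G W (p + 3) →
    W.card ≤ (p + 3) * (a + 1) →
    ((p + 3).choose (w + 2) : ℝ) * (a : ℝ) ^ (w + 2) ≤ kc G W (w + 2) + C₀ * (a : ℝ) ^ (w + 1) →
    ∃ (P : Fin (p + 3) → Finset V) (U : Finset V), Str G p a e C W P U

/-! ### Counting -/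

/-- (GRD) Cliques in the common neighbourhood of a partial transversal `S`, `card S = j`.
PROOF. Induction on `m`: first `kc G (cn G X S) m ≥ choose (b-j) m * ∏_(i<m) ((1 - e - (j+i) e1) a)` (real
product, all factors positive). `m = 0`: `kc_zero`. `m + 1`: `Y = cn G X S`; `(m+1) kc G Y (m+1) = ∑_(x ∈ Y)
kc G (nb G Y x) m` and `nb G Y x = cn G X (insert x S)` (`∑_(x ∈ Y) kc G (nb G Y x) m` counts the pairs
`x ∈ T`: `sum_link`, or `sum_facets`); `insert x S` is a partial transversal (`x ∈ P i` is not adjacent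
to an element of `P i`, `Par.ind`), so by induction each term is `≥ choose (b-j-1) m ∏ ..`; `card Y ≥ ∑_(i : P i ∩ S =
∅) (card (P i) - ∑_(x ∈ S) card (non G (P i) x)) ≥ (b-j) (1 - e - j e1) a` (at least `b - j` such `i`);
`(b-j) choose (b-j-1) m = (m+1) choose (b-j) (m+1)`. Then `∏_(i<m) (1 - e - (j+i) e1) ≥ 1 - b e -
(b(b-1)/2) e1 ≥ 1 - 1/(32 b)`, as `e ≤ e1/2`, `e1 = 1/(16 b^3)`. -/
def GRDStmt : Prop :=
  ∀ {V : Type} [DecidableEq V] (G : SimpleGraph V) (p a : ℕ) (e : ℝ)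
    (P : Fin (p + 3) → Finset V), 0 ≤ e → e ≤ e1 p / 2 → Par G P →
    (∀ i, (1 - e) * a ≤ ((P i).card : ℝ)) →
    (∀ i, ∀ u ∈ P i, ∀ k, k ≠ i → ((non G (P k) u).card : ℝ) ≤ e1 p * a) →
    ∀ (S : Finset V) (j m : ℕ), S ⊆ un P → (∀ i, (S ∩ P i).card ≤ 1) → S.card = j →
    j + m ≤ p + 3 →
    (1 - 1 / (32 * ((p : ℝ) + 3))) * ((p + 3 - j).choose m * (a : ℝ) ^ m) ≤
      kc G (cn G (un P) S) m

/-- (DBL) Double counting of pairs `S ⊆ L`. Needs GRD for the second part.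
PROOF. Count the pairs `(S, L)`, `S ∈ clq G (nb G X z) j`, `S ⊆ L ∈ clq G X b`: for fixed `L` the sets `S` are
the `j`-subsets of `nb G L z`. For fixed `S` the sets `L \ S` are the cliques in `cn G X S` with `b - j` elements;
GRD with `m = b - j` (`choose m m = 1`; a clique has at most one element in each `P i`). -/
def DBLStmt : Prop :=
  ∀ {V : Type} [DecidableEq V] (G : SimpleGraph V) (p a : ℕ) (e : ℝ)
    (P : Fin (p + 3) → Finset V), 0 ≤ e → e ≤ e1 p / 2 → Par G P →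
    (∀ i, (1 - e) * a ≤ ((P i).card : ℝ)) →
    (∀ i, ∀ u ∈ P i, ∀ k, k ≠ i → ((non G (P k) u).card : ℝ) ≤ e1 p * a) →
    ∀ (z : V) (j : ℕ), j ≤ p + 3 →
    ∑ S ∈ clq G (nb G (un P) z) j, (kc G (cn G (un P) S) (p + 3 - j) : ℝ) =
      ∑ L ∈ clq G (un P) (p + 3), ((nb G L z).card.choose j : ℝ) ∧
    (1 - 1 / (32 * ((p : ℝ) + 3))) * ((a : ℝ) ^ (p + 3 - j) * kc G (nb G (un P) z) j) ≤
      ∑ L ∈ clq G (un P) (p + 3), ((nb G L z).card.choose j : ℝ)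

/-- (EXB) The same with a better constant and an absolute error. Needs TRV, BRK.
PROOF. Count the pairs `(S, f)`, `S ∈ clq G (nb G X z) j`, `f ∈ Fintype.piFinset P`, `S ⊆ image f`. For
fixed `S` (one element in `j` of the parts) there are `∏_(i : P i ∩ S = ∅) card (P i) ≥ ((1-e) a)^(b-j)`.
For fixed `f` at most `choose b j`; if `f ∈ trv` (so `L = image f ∈ clq G X b`) exactly
`choose (nb G L z).card j`. By BRK (1) at most `tot (2a)^(p+1)` elements `f` are not in `trv` (`D = 2 a`). -/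
def EXBStmt : Prop :=
  ∀ {V : Type} [DecidableEq V] (G : SimpleGraph V) (p a : ℕ) (e : ℝ)
    (P : Fin (p + 3) → Finset V), 0 ≤ e → e ≤ 1 / 2 → Par G P →
    (∀ i, (1 - e) * a ≤ ((P i).card : ℝ) ∧ ((P i).card : ℝ) ≤ (1 + e) * a) →
    ∀ (z : V) (j : ℕ), j ≤ p + 3 →
    ((1 - e) * a) ^ (p + 3 - j) * (kc G (nb G (un P) z) j : ℝ) ≤
      ∑ L ∈ clq G (un P) (p + 3), ((nb G L z).card.choose j : ℝ) +
        ((p + 3).choose j : ℝ) * (tot G P * (2 * (a : ℝ)) ^ (p + 1))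

/-- (CCK) The cliques in which `z ∈ U` has `b - 1` neighbours. Needs GRD, GCO.
PROOF. For `z ∈ W`, `L ∈ clq G X (p+3)`: `(nb G L z).card ≤ p + 2` (`CB G W (p+3)`: else `insert z L` is a
clique with `p + 4` elements; if `z ∈ L` clear). (1) `L` with `(nb G L z).card = p + 2` is `insert x S` with
`S = nb G L z ∈ clq G (nb G X z) (p+2)`, `x` in the part missed by `S`: at most `(1+e) a ≤ 2 a` elements `x`.
(2) `S ∈ clq G (nb G X z) (p+2)`: GRD (`m = 1`): `card (cn G X S) ≥ a / 2`; for `x ∈ cn G X S` the set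
`L = insert x S` is in `clq G X (p+3)` and `x` is not adjacent to `z` (CB), so `nb G L z = S`; `S` is determined by
`L`. (3) the terms of `TZ` are `≥ 0`, `ww p r (p+2) = 1`, `ww p r (p+1) ≥ 1/2`. -/
def CCKStmt : Prop :=
  ∀ {V : Type} [DecidableEq V] (G : SimpleGraph V) (p w r a : ℕ) (e C : ℝ) (W : Finset V)
    (P : Fin (p + 3) → Finset V) (U : Finset V), Prm p w r → Str G p a e C W P U → 0 ≤ e →
    e ≤ e1 p / 2 → CB G W (p + 3) → ∀ z ∈ U,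
    (∀ L ∈ clq G (un P) (p + 3), (nb G L z).card ≤ p + 2) ∧
    (cc G p (un P) (p + 2) z : ℝ) ≤ (1 + e) * a * kc G (nb G (un P) z) (p + 2) ∧
    (a : ℝ) / 2 * kc G (nb G (un P) z) (p + 2) ≤ cc G p (un P) (p + 2) z ∧
    (cc G p (un P) (p + 2) z : ℝ) + 1 / 2 * cc G p (un P) (p + 1) z ≤ TZ G p r (un P) z

/-- (SWP) Needs CSC, CCK (2). PROOF. CSC (with `r := 0`, its `η`): `a κ ≤ (1-η) cc (p+2) + 1/4 cc (p+1)`,
`κ = kc G (nb G X z) (p+2)`; CCK (2): `cc (p+2) ≤ (1+e) a κ`. With `e ≤ η/2`: `(1+e)(1-η) ≤ 1 - η/2` and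
`(1+e)/4 ≤ 1/2`, so `(η/2) cc (p+2) ≤ (1/2) cc (p+1)`. `s = η`. (CCK needs some `Prm`: use
`Prm p w r` from the hypothesis.) -/
def SWPStmt : Prop :=
  ∀ p w r : ℕ, Prm p w r → ∃ s e₀ : ℝ, 0 < s ∧ s ≤ 1 / 4 ∧ 0 < e₀ ∧ e₀ ≤ e1 p / 2 ∧
    ∀ C : ℝ, ∃ a₀ : ℕ, ∀ a ≥ a₀,
    ∀ {V : Type} [DecidableEq V] (G : SimpleGraph V) (e : ℝ)
    (W : Finset V) (P : Fin (p + 3) → Finset V) (U : Finset V), Str G p a e C W P U →
    0 ≤ e → e ≤ e₀ → CB G W (p + 3) → ∀ z ∈ U,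
    s * (cc G p (un P) (p + 2) z : ℝ) ≤ cc G p (un P) (p + 1) z

/-! ### Exceptional vertices -/

/-- (SUM) The pointwise inequality summed. Needs GCO, CCK.
PROOF. `B = (nb G L z).card ≤ p + 2` (CCK (1)). GCO (5) for `B ≤ p + 1`; for `B = p + 2`: `choose (p+2) (w+1) =
c₁ ww p r (p+2)`. Sum: `∑ choose B (w+1) ≤ c₁ [(1 - 1/b)(TZ - cc (p+2)) + cc (p+2)]`. -/
def SUMStmt : Prop :=
  ∀ {V : Type} [DecidableEq V] (G : SimpleGraph V) (p w r a : ℕ) (e C : ℝ) (W : Finset V)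
    (P : Fin (p + 3) → Finset V) (U : Finset V), Prm p w r → Str G p a e C W P U → 0 ≤ e →
    e ≤ e1 p / 2 → CB G W (p + 3) → ∀ z ∈ U,
    ∑ L ∈ clq G (un P) (p + 3), ((nb G L z).card.choose (w + 1) : ℝ) ≤
      (p + 2).choose (w + 1) * ((1 - 1 / ((p : ℝ) + 3)) * TZ G p r (un P) z +
        1 / ((p : ℝ) + 3) * cc G p (un P) (p + 2) z)

/-- (CZA) Two parts with few neighbours of `z`. Needs CSA, CCK, SUM, DBL.
PROOF. `b = p + 3`, `c₁ = choose (p+2) (w+1)`, `T = TZ`. CSA: `8 a κ ≤ cc (p+1)`, CCK (2): `cc (p+2) ≤ 2 a κ`, so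
`cc (p+2) ≤ cc (p+1)/4` and by CCK (4) `3 cc (p+2) ≤ T`. SUM: `∑ choose ≤ c₁ (1 - 1/b + 1/(3b)) T = c₁
(1 - 2/(3b)) T`; DBL (`j = w + 1`): `(1 - 1/(32b)) a^(b-w-1) kc ≤ c₁ (1 - 2/(3b)) T`, and
`1 - 2/(3b) ≤ (1 - 1/(2b)) (1 - 1/(32b))`. Multiply by `a^(w+1)`. -/
def CZAStmt : Prop :=
  ∀ p w r : ℕ, Prm p w r → ∀ C : ℝ, ∃ a₀ : ℕ, ∀ a ≥ a₀,
    ∀ {V : Type} [DecidableEq V] (G : SimpleGraph V) (e : ℝ)
    (W : Finset V) (P : Fin (p + 3) → Finset V) (U : Finset V), Str G p a e C W P U →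
    0 ≤ e → e ≤ e1 p / 2 → CB G W (p + 3) → ∀ z ∈ U, ∀ k0 l1, k0 ≠ l1 →
    ((nb G (P k0) z).card : ℝ) ≤ a / 32 → ((nb G (P l1) z).card : ℝ) ≤ a / 32 →
    (kc G (nb G (un P) z) (w + 1) : ℝ) * (a : ℝ) ^ (p + 3) ≤
      (1 - 1 / (2 * ((p : ℝ) + 3))) *
        ((p + 2).choose (w + 1) * (a : ℝ) ^ (w + 1)) * TZ G p r (un P) z

/-- (CZB) At most one part with few neighbours of `z`. Needs TRV, BRK, CCK, SUM, EXB, SWP.
PROOF. `b = p + 3`, `T = TZ`, `c₁ = choose (p+2) (w+1)`, `c₀ = (1/32)^(p+2)/8`. (i) `cc (p+2) ≥ c₀ a^b`: BRK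
(1), (3) for `S l = nb G (P l) z` (`l ≠ k0`), `S k0 = P k0`: `card (trv G S) ≥ (a/32)^(p+2) (a/2) - C a
(2a)^(p+1)`; for `f ∈ trv G S`, `L = image f ∈ clq G X b` (TRV) has `(nb G L z).card ≥ p + 2`, so `= p + 2`
(CCK (1)), and `f ↦ image f` is injective. (ii) SWP, CCK (4): `T ≥ (1 + s/2) cc (p+2)`. SUM: `∑ choose ≤ c₁
(1 - 1/b + 1/(b (1+s/2))) T ≤ c₁ (1 - s/(3b)) T`. (iii) EXB (`j = w + 1`): `((1-e) a)^(b-w-1) kc ≤ c₁
(1 - s/(3b)) T + K a^(p+2)`, `K = choose b (w+1) C 2^(p+1)`, and `K a^(p+2) ≤ (K/(c₀ a)) T ≤ c₁ s/(12b) T` for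
`a` large. `(1-e)^b ≥ 1 - b e ≥ 1 - s/(32b)` for `e₀ ≤ s/(32 b^2)`, so `a^(b-w-1) kc ≤ (1 - s/(8b)) c₁ T`.
`η = s/(8b)`. -/
def CZBStmt : Prop :=
  ∀ p w r : ℕ, Prm p w r → ∃ η e₀ : ℝ, 0 < η ∧ η ≤ 1 / 2 ∧ 0 < e₀ ∧ e₀ ≤ e1 p / 2 ∧
    ∀ C : ℝ, ∃ a₀ : ℕ, ∀ a ≥ a₀,
    ∀ {V : Type} [DecidableEq V] (G : SimpleGraph V) (e : ℝ)
    (W : Finset V) (P : Fin (p + 3) → Finset V) (U : Finset V), Str G p a e C W P U →
    0 ≤ e → e ≤ e₀ → CB G W (p + 3) → ∀ z ∈ U, ∀ k0,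
    (∀ l, l ≠ k0 → (a : ℝ) / 32 ≤ ((nb G (P l) z).card : ℝ)) →
    (kc G (nb G (un P) z) (w + 1) : ℝ) * (a : ℝ) ^ (p + 3) ≤
      (1 - η) * ((p + 2).choose (w + 1) * (a : ℝ) ^ (w + 1)) * TZ G p r (un P) z

/-- (CZC) Both cases together. Needs CZA, CZB. PROOF. If for some `k0` all `l ≠ k0` have
`card (nb G (P l) z) ≥ a/32`: CZB. Otherwise two different parts have fewer (take `k0 = 0`, get `l`, then
`k0 = l`): CZA. `η` = minimum of the two (`TZ ≥ 0` by CCK (4)). Needs CCK. -/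
def CZCStmt : Prop :=
  ∀ p w r : ℕ, Prm p w r → ∃ η e₀ : ℝ, 0 < η ∧ η ≤ 1 / 2 ∧ 0 < e₀ ∧ e₀ ≤ e1 p / 2 ∧
    ∀ C : ℝ, ∃ a₀ : ℕ, ∀ a ≥ a₀,
    ∀ {V : Type} [DecidableEq V] (G : SimpleGraph V) (e : ℝ)
    (W : Finset V) (P : Fin (p + 3) → Finset V) (U : Finset V), Str G p a e C W P U →
    0 ≤ e → e ≤ e₀ → CB G W (p + 3) → ∀ z ∈ U,
    (kc G (nb G (un P) z) (w + 1) : ℝ) * (a : ℝ) ^ (p + 3) ≤
      (1 - η) * ((p + 2).choose (w + 1) * (a : ℝ) ^ (w + 1)) * TZ G p r (un P) z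

/-- (KU2) Cliques with `w` vertices. Needs DBL, GCO, CCK (1), TRV.
PROOF. DBL (`j = w`): `(1 - 1/(32b)) a^(b-w) κ ≤ ∑_L choose B w`, `B = (nb G L z).card ≤ p + 2`. If `B < r ≤ w + 1`
then `choose B w ≤ 1`; if `B ≥ r` then `choose B w ≤ 2^(p+3) ≤ 2^(p+3) (p+3) ww p r B` (GCO (4)). So the sum is
`≤ kc G X b + 2^(p+3) (p+3) T`; `kc G X b = card trv ≤ ∏ card (P i) ≤ (1+e)^b a^b ≤ (4/3) a^b` (TRV; `e ≤ e1/2`).
`(4/3)/(1 - 1/96) ≤ 3/2`. Multiply by `a^w`. -/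
def KU2Stmt : Prop :=
  ∀ {V : Type} [DecidableEq V] (G : SimpleGraph V) (p w r a : ℕ) (e C : ℝ) (W : Finset V)
    (P : Fin (p + 3) → Finset V) (U : Finset V), Prm p w r → Str G p a e C W P U → 0 ≤ e →
    e ≤ e1 p / 2 → CB G W (p + 3) → ∀ z ∈ U,
    (kc G (nb G (un P) z) w : ℝ) * (a : ℝ) ^ (p + 3) ≤
      (a : ℝ) ^ w * (3 / 2 * (a : ℝ) ^ (p + 3) +
        2 ^ (p + 4) * ((p : ℝ) + 3) * TZ G p r (un P) z)

/-- (DKU) Cliques with a given number of vertices in `Z` (disjoint from `X`).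
PROOF. Sort the cliques `K ⊆ X ∪ Z` with `w + 2` vertices by `Q = K ∩ Z`. `Q = ∅`: `kc G X (w+2)`. `Q = {z}`:
`K.erase z ∈ clq G (nb G X z) (w+1)`. `Q = {z, z'}`: `K \ Q` is a clique with `w` vertices in `nb G X z` and in
`nb G X z'`: the number is `≤ (κ z + κ z')/2`, `κ z = kc G (nb G X z) w`; the sum over all pairs of `Z` is
`≤ (card Z - 1)/2 ∑ κ z`. `card Q ≥ 3` (only if `card Z ≥ 3` and `w ≥ 1`): at most `2 ^ card Z` sets `Q`, for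
each at most `choose (card X) (w+2-card Q) ≤ (card X + 1)^(w-1)` sets `K \ Q`. -/
def DKUStmt : Prop :=
  ∀ {V : Type} [DecidableEq V] (G : SimpleGraph V) (X Z : Finset V) (w : ℕ), Disjoint X Z →
    (kc G (X ∪ Z) (w + 2) : ℝ) ≤ kc G X (w + 2) + ∑ z ∈ Z, (kc G (nb G X z) (w + 1) : ℝ) +
      ((Z.card : ℝ) - 1) / 2 * ∑ z ∈ Z, (kc G (nb G X z) w : ℝ) +
      (if Z.card ≤ 2 then 0 else (2 : ℝ) ^ Z.card * ((X.card : ℝ) + 1) ^ w / ((X.card : ℝ) + 1))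

/-- (DML) Cliques with `p + 3` vertices which meet `Z`.
PROOF. As in DKU: `card (L ∩ Z) = 1`: `∑_z kc G (nb G X z) (p+2)`; `≥ 2` (only if `card Z ≥ 2`): at most
`2 ^ card Z * (card X + 1)^(p+1)`. (`KBDStmt` of the board `kq` is similar.) -/
def DMLStmt : Prop :=
  ∀ {V : Type} [DecidableEq V] (G : SimpleGraph V) (X Z : Finset V) (p : ℕ), Disjoint X Z →
    (((clq G (X ∪ Z) (p + 3)).filter (fun L => ¬ Disjoint L Z)).card : ℝ) ≤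
      ∑ z ∈ Z, (kc G (nb G X z) (p + 2) : ℝ) +
        (if Z.card ≤ 1 then 0 else (2 : ℝ) ^ Z.card * ((X.card : ℝ) + 1) ^ (p + 1))

/-! ### The parts -/

/-- (MLB) The weights inside the parts. Needs TRV, GCO (6).
PROOF (model: (c) in the proof of `BASStmt`, `Pool/Agent/H60/KQ/BAS.lean`). `L = image f`, `f ∈ trv` (TRV). For
`y ∈ P i`: `(nb G L y).card + 1 = b - μ`, `μ = #{k ≠ i : f k ∈ non}`, so `gg ≤ g₁ μ + choose μ 2` with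
`g₁ = r/((b-r)(b-1))`. `∑_(f ∈ piFinset P) #{y ∈ P i : y, f k not adjacent} = M_ik ∏_(l ≠ k) card (P l)`, `M_ik =
∑_(y ∈ P i) card (non G (P k) y)`, `∑_(i ≠ k) M_ik = tot`; with two indices `k ≠ l` (both `≠ i`): `∑_(y ∈ P i) card
(non (P k) y) card (non (P l) y) ∏_(m ≠ k, l) card (P m) ≤ e1 a M_ik ((1+e) a)^(b-2)`, also with `M_il`; so the
sum over the `{k, l}` is `≤ (b/2) e1 ∑_k M_ik ((1+e) a)^(b-1)`. -/
def MLBStmt : Prop :=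
  ∀ {V : Type} [DecidableEq V] (G : SimpleGraph V) (p w r a : ℕ) (e : ℝ)
    (P : Fin (p + 3) → Finset V), Prm p w r → 0 ≤ e → Par G P →
    (∀ i, ((P i).card : ℝ) ≤ (1 + e) * a) →
    (∀ i, ∀ u ∈ P i, ∀ k, k ≠ i → ((non G (P k) u).card : ℝ) ≤ e1 p * a) →
    ∑ L ∈ clq G (un P) (p + 3), mm G p r (un P) L ≤
      tot G P * ((1 + e) * a) ^ (p + 2) *
        ((r : ℝ) / (((p : ℝ) + 3 - r) * ((p : ℝ) + 2)) + ((p : ℝ) + 3) / 2 * e1 p)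

/-- (CPL) The cliques of a complete multipartite graph. PROOF. Induction on `b` for all `P` with
`Par H P` and `H` complete between different parts: `un P = P 0 ∪ un (tail)`; a clique has at most one
vertex in `P 0` and for `x ∈ P 0` `nb H (un P) x = un (tail)`, so `kc H (un P) (u+1) = kc H (un tail) (u+1) +
card (P 0) * kc H (un tail) u`; the same recursion holds for `es` (`Fin.prod_univ_succ`,
`∏ = (1 + n_0 X) ∏ tail`). -/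
def CPLStmt : Prop :=
  ∀ {V : Type} [DecidableEq V] (H : SimpleGraph V) {b : ℕ} (P : Fin b → Finset V), Par H P →
    (∀ i k, i ≠ k → ∀ x ∈ P i, ∀ y ∈ P k, H.Adj x y) → ∀ u, kc H (un P) u = es (sz P) u

/-- (KUM) The number of `u`-cliques in the parts. Needs CPL, GRD.
PROOF. `H` = the complete multipartite graph: `H.Adj x y` iff `x ≠ y` and `∃ i k, i ≠ k, x ∈ P i, y ∈ P k`. A
clique of `G` in `X = un P` is a clique of `H` (`Par.ind`). For an ordered pair `(y, y')`, `y ∈ P i`, `y' ∈ P k`,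
`i ≠ k`, not adjacent in `G` (there are `tot` of them), and `R ∈ clq G (cn G X {y, y'}) w` the set
`{y, y'} ∪ R` is an `H`-clique with `w + 2` vertices (`R` has no vertex in `P i`, `P k`: it would be adjacent to `y`,
`y'`), not a `G`-clique, and `{y, y'}` is its only pair which is not adjacent in `G`; so it comes from exactly two
`(y, y', R)`. Hence `∑_(y, y') kc G (cn G X {y, y'}) w ≤ 2 (kc H X (w+2) - kc G X (w+2))`; CPL, and GRD with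
`S = {y, y'}`, `j = 2`, `m = w`. -/
def KUMStmt : Prop :=
  ∀ {V : Type} [DecidableEq V] (G : SimpleGraph V) (p w a : ℕ) (e : ℝ)
    (P : Fin (p + 3) → Finset V), w ≤ p → 0 ≤ e → e ≤ e1 p / 2 → Par G P →
    (∀ i, (1 - e) * a ≤ ((P i).card : ℝ)) →
    (∀ i, ∀ u ∈ P i, ∀ k, k ≠ i → ((non G (P k) u).card : ℝ) ≤ e1 p * a) →
    (kc G (un P) (w + 2) : ℝ) + (tot G P : ℝ) / 2 *
      ((1 - 1 / (32 * ((p : ℝ) + 3))) * ((p + 1).choose w * (a : ℝ) ^ w)) ≤ es (sz P) (w + 2)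

/-- (NET) Missing pairs cost more than they bring. Needs MLB, KUM, BRK, TRV, LMB.
PROOF. `M = tot`, `b = p + 3`, `c₂ = choose (p+1) w`, `choose (p+2) (w+1) = c₂ (p+2)/(w+1)`. By TRV, BRK (1)
(`D = 2a`): `∏ card (P i) - kc G X b ≤ M (2a)^(p+1)`, `lam ≤ Lm ≤ K a^(w+1)/a^(p+3)`: second term `≤ M K' a^w/a`.
First term, MLB, LMB: `≤ (1+K/a) (1+e)^(b-1) c₂ ((p+2)/(w+1)) a^w M (g₁ + (b/2) e1)`. `2 ((p+2)/(w+1)) g₁ =
2 r/((w+1)(b-r)) ≤ 2/3` (`r ≤ w+1`, `b - r ≥ 3`), `2 ((p+2)/(w+1)) (b/2) e1 ≤ b^2 e1 = 1/(16b) ≤ 1/48`. So twice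
the first two terms is `≤ M c₂ a^w [(1+K/a)(1+e)^b (2/3 + 1/48) + K''/a] ≤ M c₂ a^w (9/10)` for `a` large
(`(1+e)^b ≤ 1 + 2be ≤ 1 + 1/(16 b)`), and `9/10 ≤ 1 - 1/(32b)`. KUM. -/
def NETStmt : Prop :=
  ∀ p w r : ℕ, Prm p w r → ∃ a₀ : ℕ, ∀ a ≥ a₀,
    ∀ {V : Type} [DecidableEq V] (G : SimpleGraph V) (e : ℝ)
    (P : Fin (p + 3) → Finset V), 0 ≤ e → e ≤ e1 p / 2 → Par G P →
    (∀ i, (1 - e) * a ≤ ((P i).card : ℝ) ∧ ((P i).card : ℝ) ≤ (1 + e) * a) →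
    (∀ i, ∀ u ∈ P i, ∀ k, k ≠ i → ((non G (P k) u).card : ℝ) ≤ e1 p * a) →
    Lm p w r a * ∑ L ∈ clq G (un P) (p + 3), mm G p r (un P) L +
      lam p w r a * ((∏ i, ((P i).card : ℝ)) - kc G (un P) (p + 3)) + kc G (un P) (w + 2) ≤
      es (sz P) (w + 2)

/-! ### Assembly of the local inequality -/

/-- (XSP) The weight of `L ⊆ un P`, and the bound for `min`. Needs GCO (1).
PROOF. `W = X ∪ U` disjoint (`cov`, `disU`). (1) `XX G p r a W L = Δ - card X - card U + mm + ∑_(z ∈ U) gg`, and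
`∑_(z ∈ U) gg = card U - ∑ ww`. (2) Let `y = ∑_(z ∈ U) ww`, `0 ≤ y ≤ card U ≤ x = Δ - card X`, `m = mm ≥ 0`,
`f = min r (x + m - y) + (1-η) y`. If `y ≤ x + m - r`: `f ≤ r + (1-η) y ≤ x + m - η (x+m-r)`. If `y ≥ x + m - r`:
`f ≤ x + m - η y`. So `f ≤ x + m - η max y (x+m-r) ≤ x + m - (η/2) y - (η/2) max (x-r) 0`. The values
`(nb G L z).card ≤ p + 2` by CCK (1) for `z ∈ U` (needs CCK), and for `z ∈ X` too (`CB`). -/
def XSPStmt : Prop :=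
  ∀ {V : Type} [DecidableEq V] (G : SimpleGraph V) (p w r a : ℕ) (e C η : ℝ) (W : Finset V)
    (P : Fin (p + 3) → Finset V) (U : Finset V), Prm p w r → Str G p a e C W P U → 0 ≤ e →
    e ≤ e1 p / 2 → CB G W (p + 3) → W.card ≤ (p + 3) * a + r → 0 ≤ η → η ≤ 1 →
    ∀ L ∈ clq G (un P) (p + 3),
    min (r : ℝ) (XX G p r a W L) + (1 - η) * ∑ z ∈ U, ww p r (nb G L z).card ≤
      ((((p + 3) * a + r : ℕ) : ℝ) - (un P).card) + mm G p r (un P) L -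
        η / 2 * ∑ z ∈ U, ww p r (nb G L z).card -
        η / 2 * max ((((p + 3) * a + r : ℕ) : ℝ) - (un P).card - r) 0

/-- (LIS) The local inequality with structure. Needs CZC, CCK, KU2, DKU, DML, XSP, NET, SIZ, XGR, LMB,
GCO. `X = un P`, `h = card U ≤ C`, `x = Δ - card X ≥ h` (natural), `T = ∑_(z ∈ U) TZ z ≥ 0`, `η` from CZC.
PROOF. (a) `kc G W b ≥ kc G X b`; cliques of `W`: those in `X` and those meeting `U`, `min r _ ≤ r`, so with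
XSP summed (`∑_L ∑_z ww = T`): `∑_L min r XX ≤ (x - (η/2) max (x-r) 0) kc G X b + ∑ mm - (1 - η/2) T + r N`, `N` = number
of cliques meeting `U`. DML, CCK (3), (4): `∑_z kc G (nb G X z) (p+2) ≤ (2/a) T`; so `N ≤ (2/a) T + [h ≥ 2] K
a^(p+1)`. (b) DKU: `kc G W u ≤ kc G X u + ∑ κ_(w+1) + ((h-1)/2) ∑ κ_w + [h ≥ 3] K a^w/a`. CZC and LMB (1):
`κ_(w+1) z ≤ (1-η)(1 + 2K/a) Lm TZ z`; KU2 and LMB: `κ_w z ≤ (3/2) a^w + (K/a) Lm TZ z`, so `((h-1)/2) ∑ κ_w ≤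
(3/2) choose h 2 a^w + (K/a) Lm T`. (c) NET: `Lm ∑ mm + kc G X u ≤ es - lam (∏ - kc G X b)`. (d) If `x ≤ r`:
SIZ; as `lam (bal - kc G X b) + Lm x kc G X b = lam (bal - ∏) + lam (∏ - kc) + Lm x kc` and `kc ≤ ∏`:
everything adds up to: `LHS - RHS` of LIN `≤ Lm T [-(1 - η/2) + (1-η)(1+2K/a) + K/a] + (3/2) choose h 2 a^w +
[h ≥ 2] K a^w/a - (5/2) choose x 2 a^w ≤ 0` for `a` large, as `h ≤ x` (`Lm a^(p+1) ≤ K a^w/a`). (e) If `x > r`: the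
same with XGR (its `K` = `2 C^2 + K`, absorbing `(3/2) choose h 2 a^w` etc.) instead of SIZ. `bal` is `bal (p+3)
((p+3) a + r) = a^(p+3-r) (a+1)^r` (unfold). `e₀` = minimum of those of CZC, XGR and `e1/2`. -/
def LISStmt : Prop :=
  ∀ p w r : ℕ, Prm p w r → ∃ e : ℝ, 0 < e ∧ e ≤ 1 / 2 ∧ ∀ C : ℝ, 0 < C → ∃ a₀ : ℕ, ∀ a ≥ a₀,
    ∀ {V : Type} [DecidableEq V] (G : SimpleGraph V) (W : Finset V)
    (P : Fin (p + 3) → Finset V) (U : Finset V), Str G p a e C W P U → CB G W (p + 3) →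
    W.card ≤ (p + 3) * a + r → LIN G p w r a W

/-- (LIA) The local inequality. Needs LIS, STC, LMB, TTR.
PROOF. `bal = bal (p+3) Δ`. By `zyk` and `bal_mono` `kc G W b ≤ bal`, `min r _ ≤ r`: the left side of LIN is
`≤ lam bal + Lm r bal = (p+5) lam bal`, and LMB (last), TTR (3): `lam bal = r (a+1) D₁/((p+4)a+r) ≤ r
choose (p+2) (w+1) (a+1)^(w+1) ≤ K a^(w+1)`. So if `kc G W (w+2) ≤ TT (p+3) (w+2) a r - C₀ a^(w+1)` with
`C₀ = (p+5) K` done. Otherwise `TT ≥ choose (p+3) (w+2) a^(w+2)` (TTR (3)), STC with this `C₀` and the `e` of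
LIS, then LIS with the `C` of STC. -/
def LIAStmt : Prop :=
  ∀ p w r : ℕ, Prm p w r → ∃ a₀ : ℕ, ∀ a ≥ a₀, ∀ {V : Type} [DecidableEq V] (G : SimpleGraph V)
    (W : Finset V), CB G W (p + 3) → W.card ≤ (p + 3) * a + r → LIN G p w r a W

/-- (FNL) The theorem. Needs LIA, GLD, TCT. PROOF. As `Pool.KQ.final` (`Pool/Agent/H7/KQ/{Fin,Final}.lean`):
`kc H univ (w+3)` is the number of `(w+3)`-cliques (`ncard`), `CB H univ (p+4)` from `CliqueFree (p+5)`, LIA for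
`W = nb H univ v`, GLD, TCT. -/
def FNLStmt : Prop :=
  ∀ p w r : ℕ, Prm p w r → ∃ a₀ : ℕ, ∀ a ≥ a₀, ∀ (m : ℕ) (H : SimpleGraph (Fin m)),
    (∀ v, (H.neighborSet v).ncard ≤ (p + 3) * a + r) → H.CliqueFree (p + 5) →
      {s : Finset (Fin m) | H.IsNClique (w + 3) s}.ncard * ((p + 4) * a + r) ≤
        {s : Finset (Fin ((p + 4) * a + r)) |
          (SimpleGraph.turanGraph ((p + 4) * a + r) (p + 4)).IsNClique (w + 3) s}.ncard * m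

end Pool.GT7
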